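import Mathlib
import Pool.Agent.H892.ZL.Stm2

set_option autoImplicit false

/-!
# Criterion for the hypotheses on the cubic of a net
-/

namespace Pool.Agent.H274.ZL

open MvPolynomial Matrix Pool.Agent.H892.ZL

theorem eval_kap (K : MvPolynomial (Fin 6) ℂ) (x y : Fin 3 → ℂ) :
    eval (pt x y) (kap K) = eval (aff x y) K := by
  have h : (eval (pt x y)).comp (aeval gp : MvPolynomial (Fin 6) ℂ →ₐ[ℂ] SA).toRingHom =
      eval (aff x y) := by
    apply MvPolynomial.ringHom_ext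
    · intro r
      simp
    · intro i
      fin_cases i <;> simp [gp, aff, plu, pt]
  have := congrArg (fun f : MvPolynomial (Fin 6) ℂ →+* ℂ => f K) h
  simpa [kap] using this

theorem plu_smul (a b : ℂ) (x y : Fin 4 → ℂ) : plu (a • x) (b • y) = (a * b) • plu x y := by
  funext i
  fin_cases i <;> simp [plu] <;> ring

theorem t_GOOD (h1 : S_NETH) (h2 : S_NETD) (h3 : S_SING) : S_GOOD := by
  intro Q hQ hA hB P hP hL
  refine ⟨h1 Q, ?_, ?_⟩
  · intro j
    obtain ⟨x, hx⟩ := hL j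
    refine ⟨x, ?_⟩
    rw [eval_kap, aff, (h2 Q hQ).1]
    exact hx
  · classical
    refine ⟨Finset.univ.image (fun ij : Fin 8 × Fin 8 => plu (P ij.1) (P ij.2)), ?_⟩
    intro v hv hs
    obtain ⟨x, y, hx, hy, hli, rfl⟩ := h3 Q hQ hA hB v hv hs
    have hx0 : x ≠ 0 := hli.ne_zero 0
    have hy0 : y ≠ 0 := hli.ne_zero 1
    obtain ⟨i, c, rfl⟩ := hP x hx0 hx
    obtain ⟨j, d, rfl⟩ := hP y hy0 hy
    refine ⟨plu (P i) (P j), ?_, ?_, ?_⟩
    · exact Finset.mem_image.2 ⟨(i, j), Finset.mem_univ _, rfl⟩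
    · intro h0
      apply hv.1
      rw [plu_smul, h0, smul_zero]
    · intro k l
      rw [plu_smul]
      simp only [Pi.smul_apply, smul_eq_mul]
      ring

end Pool.Agent.H274.ZL
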